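import Mathlib
import Pool.Agent.MP_98f34a_gt.H5.Defs

/-! Dendroids are one-dimensional: generic continuous functions have zero sets without arcs. -/

namespace Pool.Agent.MP_98f34a_gt.H92

open Set Metric TopologicalSpace Filter Topology Pool.Agent.MP_98f34a_gt.H5

variable {X : Type} [MetricSpace X]

/-- The set contains no arc. -/
def ArcFree (S : Set X) : Prop :=
  ∀ (g : ℝ → X) (a b : ℝ), Continuous g → a < b → InjOn g (Icc a b) → ¬ ∀ u ∈ Icc a b, g u ∈ S

/-- No slow path crosses from `t = 0` to `t = 1` near the zero set of `s`. -/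
def NoCross (t : X → ℝ) (m : ℕ) (s : X → ℝ) (η : ℝ) : Prop :=
  ∀ g : ℝ → X, Continuous g → (∀ u ∈ Icc (0 : ℝ) 1, |s (g u)| ≤ η) → t (g 0) = 0 → t (g 1) = 1 →
    ¬ ∀ u ∈ Icc (0 : ℝ) 1, ∀ v ∈ Icc (0 : ℝ) 1, |u - v| ≤ 1 / (m + 1) → |t (g u) - t (g v)| ≤ 1 / 2

/-- The zigzag function. -/
noncomputable def zig (N : ℕ) (v : ℝ) : ℝ :=
  1 / 2 + 2 / 5 * Real.cos (v * Real.pi) + min v 0 + max (v - N) 0

lemma continuous_zig (N : ℕ) : Continuous (zig N) := by unfold zig; fun_prop

lemma zig_bounds (N : ℕ) (v : ℝ) : (0 ≤ v → 1 / 10 ≤ zig N v) ∧ (v ≤ N → zig N v ≤ 9 / 10) ∧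
    (0 ≤ zig N v → -1 ≤ v) ∧ (zig N v ≤ 1 → v ≤ N + 1) := by
  have h1 := Real.cos_le_one (v * Real.pi)
  have h2 := Real.neg_one_le_cos (v * Real.pi)
  have h3 : (0 : ℝ) ≤ N := N.cast_nonneg
  unfold zig
  rcases le_total v 0 with a | a <;> rcases le_total (v - N) 0 with b | b <;>
    simp only [min_eq_left, min_eq_right, max_eq_left, max_eq_right, a, b] <;>
    refine ⟨fun _ => ?_, fun _ => ?_, fun _ => ?_, fun _ => ?_⟩ <;> linarith

lemma zig_nat {N k : ℕ} (h : k ≤ N) : zig N k = 1 / 2 + 2 / 5 * (-1) ^ k := by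
  have h1 : (k : ℝ) - N ≤ 0 := sub_nonpos.2 (by exact_mod_cast h)
  rw [zig, Real.cos_nat_mul_pi, min_eq_right k.cast_nonneg, max_eq_right h1]; ring

lemma noCross_zig {t v : X → ℝ} (hv : Continuous v) (m : ℕ) :
    NoCross t m (fun x => zig (m + 2) (v x) - t x) (1 / 100) := by
  intro g hg h h0 h1 H
  have hc : Continuous fun u => v (g u) := hv.comp hg
  have a0 : v (g 0) ≤ 0 := by
    by_contra hn
    have := (zig_bounds (m + 2) (v (g 0))).1 (not_le.1 hn).le
    have := abs_le.1 (h 0 (by simp))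
    linarith [this.2]
  have a1 : ((m + 2 : ℕ) : ℝ) ≤ v (g 1) := by
    by_contra hn
    have := (zig_bounds (m + 2) (v (g 1))).2.1 (not_le.1 hn).le
    have := abs_le.1 (h 1 (by simp))
    linarith [this.1]
  have key : ∀ k ≤ m + 2, ∃ a ∈ Icc (0 : ℝ) 1, v (g a) = k ∧ (k : ℝ) / (m + 1) ≤ a := by
    intro k hk
    induction k with
    | zero =>
      obtain ⟨a, ha, e⟩ := intermediate_value_Icc zero_le_one hc.continuousOn
        (show (0 : ℝ) ∈ Icc (v (g 0)) (v (g 1)) from ⟨a0, le_trans (Nat.cast_nonneg _) a1⟩)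
      exact ⟨a, ha, by simpa using e, by simpa using ha.1⟩
    | succ k ih =>
      obtain ⟨a, ha, e, l⟩ := ih (by omega)
      obtain ⟨b, hb, e'⟩ := intermediate_value_Icc ha.2 hc.continuousOn
        (show ((k + 1 : ℕ) : ℝ) ∈ Icc (v (g a)) (v (g 1)) from
          ⟨by rw [e]; push_cast; linarith, le_trans (by exact_mod_cast hk) a1⟩)
      have hb' : b ∈ Icc (0 : ℝ) 1 := ⟨ha.1.trans hb.1, hb.2⟩
      refine ⟨b, hb', e', ?_⟩
      by_contra hn
      have h2 := abs_le.1 (H b hb' a ha (by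
        rw [abs_of_nonneg (sub_nonneg.2 hb.1)]
        rw [Nat.cast_succ, add_div] at hn
        linarith [not_le.1 hn]))
      have h3 := abs_le.1 (h a ha)
      have h4 := abs_le.1 (h b hb')
      dsimp only at e'
      simp only [e, e', zig_nat hk, zig_nat (show k ≤ m + 2 by omega), pow_succ] at h3 h4
      rcases neg_one_pow_eq_or ℝ k with s | s <;> rw [s] at h3 h4 <;>
        linarith [h2.1, h2.2, h3.1, h3.2, h4.1, h4.2]
  obtain ⟨a, ha, -, l⟩ := key (m + 2) le_rfl
  rw [div_le_iff₀ (by positivity)] at l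
  push_cast at l
  nlinarith [ha.2, (m.cast_nonneg : (0 : ℝ) ≤ m)]

variable [CompactSpace X]

lemma isOpen_noCross (t : X → ℝ) (m : ℕ) :
    IsOpen {s : C(X, ℝ) | ∃ η > 0, NoCross t m s η} := by
  refine Metric.isOpen_iff.2 fun s ⟨η, hη, h⟩ => ⟨η / 2, half_pos hη, fun s' hs' => ?_⟩
  refine ⟨η / 2, half_pos hη, fun g hg h1 => h g hg fun u hu => ?_⟩
  have h2 := abs_le.1 (h1 u hu)
  have h3 := (ContinuousMap.dist_apply_le_dist (f := s') (g := s) (g u)).trans (le_of_lt hs')
  rw [Real.dist_eq, abs_le] at h3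
  rw [abs_le]
  constructor <;> linarith [h2.1, h2.2, h3.1, h3.2]

lemma dense_noCross {t : X → ℝ} (ht : Continuous t) (h0 : ∀ x, 0 ≤ t x) (h1 : ∀ x, t x ≤ 1)
    (m : ℕ) : Dense {s : C(X, ℝ) | ∃ η > 0, NoCross t m s η} := by
  refine Metric.dense_iff.2 fun s₀ r hr => ?_
  obtain ⟨e, he, her⟩ : ∃ e : ℝ, 0 < e ∧ 3 * e < r := ⟨r / 4, by positivity, by linarith⟩
  let v : X → ℝ := fun x => (s₀ x + e) / e * ((m + 2 : ℕ) / 2)
  have hv : Continuous v := by fun_prop
  have hz := continuous_zig (m + 2)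
  let s : C(X, ℝ) := ⟨fun x => max (s₀ x - 3 * e) (min (s₀ x + 3 * e)
    (e * (zig (m + 2) (v x) - t x))), by fun_prop⟩
  refine ⟨s, ?_, e / 100, by positivity, fun g hg h => noCross_zig hv m g hg fun u hu => ?_⟩
  · refine lt_of_le_of_lt ((ContinuousMap.dist_le (by positivity)).2 fun x => ?_) her
    rw [Real.dist_eq, abs_le]
    exact ⟨by linarith [show s₀ x - 3 * e ≤ s x from le_max_left _ _],
      by rw [sub_le_iff_le_add']; exact max_le (by linarith) (min_le_left _ _)⟩
  · have h2 := abs_le.1 (h u hu)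
    set x := g u
    have h3 : s x = max (s₀ x - 3 * e) (min (s₀ x + 3 * e) (e * (zig (m + 2) (v x) - t x))) := rfl
    have hw : s₀ x = e * ((s₀ x + e) / e) - e := by field_simp; ring
    have hm : (1 : ℝ) ≤ (m + 2 : ℕ) / 2 := by
      push_cast; linarith [(m.cast_nonneg : (0 : ℝ) ≤ m)]
    have hb := zig_bounds (m + 2) (v x)
    have hvx : v x = (s₀ x + e) / e * ((m + 2 : ℕ) / 2) := rfl
    generalize (s₀ x + e) / e = w at hw hvx
    have t0 := h0 x
    have t1 := h1 x
    rw [abs_le]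
    constructor
    · by_contra hn
      have h4 := hb.2.2.2 (by linarith [not_le.1 hn])
      have h5 : w ≤ 3 := by nlinarith
      have h6 : s x < -(e / 100) := by
        rw [h3]
        exact max_lt (by nlinarith) (min_lt_of_right_lt (by nlinarith [not_le.1 hn]))
      linarith [h2.1]
    · by_contra hn
      have h4 := hb.2.2.1 (by linarith [not_le.1 hn])
      have h5 : -1 ≤ w := by nlinarith
      have h6 : e / 100 < s x := by
        rw [h3]
        exact lt_max_of_lt_right (lt_min (by nlinarith) (by nlinarith [not_le.1 hn]))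
      linarith [h2.2]

lemma dense_arcFree : Dense {s : C(X, ℝ) | ArcFree {x | s x = 0}} := by
  let T : ℕ → X → ℝ := fun n x => max 0 (min 1 (denseSeq C(X, ℝ) n x))
  have hT : ∀ n, Continuous (T n) := fun n => by fun_prop
  have hd := dense_iInter_of_isOpen (f := fun p : ℕ × ℕ =>
    {s : C(X, ℝ) | ∃ η > 0, NoCross (T p.1) p.2 s η}) (fun p => isOpen_noCross _ _)
    fun p => dense_noCross (hT _) (fun x => le_max_left _ _)
      (fun x => max_le zero_le_one (min_le_left _ _)) _
  refine hd.mono fun s hs g a b hg hab hi H => ?_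
  have hne : g b ≠ g a := fun h =>
    hab.ne' (hi (right_mem_Icc.2 hab.le) (left_mem_Icc.2 hab.le) h)
  have hp : 0 < dist (g b) (g a) := dist_pos.2 hne
  let f : C(X, ℝ) := ⟨fun x => 3 * (dist x (g a) / dist (g b) (g a)) - 1, by fun_prop⟩
  obtain ⟨n, hn⟩ := (denseRange_denseSeq C(X, ℝ)).exists_dist_lt f one_pos
  have hx : ∀ x, |f x - denseSeq C(X, ℝ) n x| ≤ 1 := fun x =>
    (ContinuousMap.dist_apply_le_dist x).trans hn.le
  let G : ℝ → X := fun u => g (a + u * (b - a))
  have hG : Continuous G := by fun_prop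
  obtain ⟨δ, hδ, hu⟩ := Metric.uniformContinuousOn_iff_le.1
    (isCompact_Icc.uniformContinuousOn_of_continuous
      (((hT n).comp hG).continuousOn (s := Icc (0 : ℝ) 1))) (1 / 2) (by norm_num)
  obtain ⟨m, hm⟩ := exists_nat_one_div_lt hδ
  obtain ⟨η, hη, h⟩ := mem_iInter.1 hs (n, m)
  refine h G hG (fun u hu => ?_) ?_ ?_ fun u hu' v hv huv => hu u hu' v hv (huv.trans hm.le)
  · have : s (G u) = 0 := H _ ⟨by nlinarith [hu.1], by nlinarith [hu.2]⟩
    rw [this, abs_zero]; exact hη.le
  · have h1 := abs_le.1 (hx (g a))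
    have h2 : f (g a) = -1 := by simp [f]
    simp only [G, T, zero_mul, add_zero]
    exact max_eq_left (min_le_of_right_le (by linarith [h1.1]))
  · have h1 := abs_le.1 (hx (g b))
    have h2 : f (g b) = 2 := by
      show 3 * (dist (g b) (g a) / dist (g b) (g a)) - 1 = 2
      rw [div_self hp.ne']; norm_num
    simp only [G, T, one_mul, add_sub_cancel]
    rw [min_eq_left (by linarith [h1.2]), max_eq_right zero_le_one]

omit [CompactSpace X] in
lemma ArcFree.union {S S' : Set X} (hc : IsClosed S) (h : ArcFree S) (h' : ArcFree S') :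
    ArcFree (S ∪ S') := by
  intro g a b hg hab hi H
  have hsub : Icc (a + (b - a) / 3) (b - (b - a) / 3) ⊆ Ioo a b := fun u hu =>
    ⟨by linarith [hu.1], by linarith [hu.2]⟩
  have := h g (a + (b - a) / 3) (b - (b - a) / 3) hg (by linarith)
    (hi.mono (hsub.trans Ioo_subset_Icc_self))
  push Not at this
  obtain ⟨u, hu, hS⟩ := this
  obtain ⟨δ, hδ, hb⟩ := Metric.isOpen_iff.1 ((hc.isOpen_compl.preimage hg).inter isOpen_Ioo) u
    ⟨hS, hsub hu⟩
  have h2 : Icc u (u + δ / 2) ⊆ g ⁻¹' Sᶜ ∩ Ioo a b := fun w hw => hb (by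
    rw [mem_ball, Real.dist_eq, abs_lt]; constructor <;> linarith [hw.1, hw.2])
  refine h' g u (u + δ / 2) hg (by linarith)
    (hi.mono fun w hw => Ioo_subset_Icc_self (h2 hw).2) fun w hw => ?_
  exact (H w (Ioo_subset_Icc_self (h2 hw).2)).resolve_left (h2 hw).1

lemma exists_cut {ε : ℝ} (hε : 0 < ε) :
    ∃ L : Set X, IsClosed L ∧ ArcFree L ∧ SmallPieces Lᶜ ε := by
  obtain ⟨t, -, hf, hc⟩ := (isCompact_univ (X := X)).finite_cover_balls (e := ε / 8)
    (by positivity)
  have hs : ∀ p : X, ∃ s : C(X, ℝ), ArcFree {x | s x = 0} ∧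
      ∀ x, |dist x p - ε / 4 - s x| ≤ ε / 8 := fun p => by
    obtain ⟨s, h1, h2⟩ := (dense_arcFree (X := X)).exists_dist_lt
      (⟨fun x => dist x p - ε / 4, by fun_prop⟩ : C(X, ℝ)) (ε := ε / 8) (by positivity)
    exact ⟨s, h1, fun x => (ContinuousMap.dist_apply_le_dist x).trans h2.le⟩
  choose s h1 h2 using hs
  have hcl : ∀ p, IsClosed {x | s p x = 0} := fun p => isClosed_eq (by fun_prop) continuous_const
  refine ⟨⋃ p ∈ t, {x | s p x = 0}, hf.isClosed_biUnion fun p _ => hcl p, ?_, ?_⟩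
  · clear hc
    induction t, hf using Set.Finite.induction_on with
    | empty => intro g a b _ hab _ H; simpa using H a (left_mem_Icc.2 hab.le)
    | insert _ _ ih => rw [biUnion_insert]; exact (h1 _).union (hcl _) ih
  · intro K hK hp x hx y hy
    obtain ⟨p, hpt, hxp⟩ := mem_iUnion₂.1 (hc (mem_univ x))
    have a1 := abs_le.1 (h2 p x)
    have a2 := abs_le.1 (h2 p y)
    have a3 : dist x p < ε / 8 := hxp
    have a4 : s p y ≤ 0 := by
      by_contra hn
      obtain ⟨z, hz, e⟩ := hp.intermediate_value hx hy (f := s p) (by fun_prop)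
        (show (0 : ℝ) ∈ Icc (s p x) (s p y) from ⟨by linarith [a1.1], (not_le.1 hn).le⟩)
      exact hK hz (mem_biUnion hpt e)
    have := dist_triangle_right x y p
    linarith [a2.2]

lemma totallyDisconnected_of (h1 : ArcConnected X) (h2 : HeredUnicoherent X) {L : Set X}
    (hc : IsClosed L) (h : ArcFree L) : IsTotallyDisconnected L := by
  intro K hK hp x hx y hy
  by_contra hne
  obtain ⟨γ, hγ⟩ := h1 x y hne
  have h3 := h2 (range γ) (closure K) (isCompact_range γ.continuous)
    (isConnected_range γ.continuous) isClosed_closure.isCompact ⟨⟨x, subset_closure hx⟩, hp.closure⟩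
  rw [inter_comm, ← image_preimage_eq_inter_range,
    (γ.continuous.isClosedEmbedding hγ).isInducing.isPreconnected_image] at h3
  have h4 : ∀ u, γ u ∈ closure K := fun u => h3.ordConnected.out
    (x := 0) (y := 1) (by simpa using subset_closure hx) (by simpa using subset_closure hy)
    ⟨u.2.1, u.2.2⟩
  refine h γ.extend 0 1 γ.continuous_extend one_pos (fun u hu v hv e => ?_) fun u hu => ?_
  · rw [γ.extend_apply hu, γ.extend_apply hv] at e
    exact congrArg Subtype.val (hγ e)
  · rw [γ.extend_apply hu]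
    exact closure_minimal hK hc (h4 _)

lemma exists_thick {L : Set X} (hc : IsClosed L) (h : IsTotallyDisconnected L) {ε : ℝ}
    (hε : 0 < ε) : ∃ η > 0, SmallPieces (cthickening η L) ε := by
  have hC : IsCompact {p : X × X | ε ≤ dist p.1 p.2} :=
    (isClosed_le continuous_const (by fun_prop)).isCompact
  have far : ∀ x ∉ L, ∀ᶠ z : ℝ × X in 𝓝 (0, x), z.2 ∉ cthickening z.1 L := fun x hx => by
    have ho : IsOpen {z : ℝ × X | ENNReal.ofReal z.1 < infEDist z.2 L} :=
      isOpen_lt (ENNReal.continuous_ofReal.comp continuous_fst)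
        (continuous_infEDist.comp continuous_snd)
    filter_upwards [ho.mem_nhds (show ((0 : ℝ), x) ∈ _ by
      simpa [hc.closure_eq] using infEDist_pos_iff_notMem_closure.2 (hc.closure_eq.symm ▸ hx))]
      with z hz
    exact fun h => not_le.2 hz (mem_cthickening_iff.1 h)
  have key := hC.eventually_forall_of_forall_eventually (x₀ := (0 : ℝ))
    (P := fun η p => ∀ K : Set X, K ⊆ cthickening η L → IsPreconnected K → p.1 ∈ K → p.2 ∉ K)
    fun p hp => ?_
  · obtain ⟨η, hη, h0⟩ := ((key.filter_mono nhdsWithin_le_nhds).and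
      (self_mem_nhdsWithin (s := Ioi (0 : ℝ)))).exists
    refine ⟨η, h0, fun K hK hp x hx y hy => ?_⟩
    by_contra hn
    exact hη (x, y) (not_le.1 hn).le K hK hp hx hy
  obtain ⟨x, y⟩ := p
  by_cases hx : x ∈ L
  swap
  · have : Continuous fun z : ℝ × X × X => (z.1, z.2.1) := by fun_prop
    filter_upwards [(this.tendsto (0, x, y)).eventually (far x hx)] with z hz K hK _ h1 _
    exact hz (hK h1)
  by_cases hy : y ∈ L
  swap
  · have : Continuous fun z : ℝ × X × X => (z.1, z.2.2) := by fun_prop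
    filter_upwards [(this.tendsto (0, x, y)).eventually (far y hy)] with z hz K hK _ _ h1
    exact hz (hK h1)
  have hne : x ≠ y := fun e => by
    have : ε ≤ dist x y := hp
    rw [e, dist_self] at this
    linarith
  have : CompactSpace L := isCompact_iff_compactSpace.1 hc.isCompact
  have : TotallyDisconnectedSpace L := totallyDisconnectedSpace_subtype_iff.2 h
  obtain ⟨U, hU, hxU, hyU⟩ := exists_isClopen_of_totally_separated
    (show (⟨x, hx⟩ : L) ≠ ⟨y, hy⟩ from fun e => hne (congrArg Subtype.val e))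
  obtain ⟨A, B, hA, hB, sA, sB, hAB⟩ := SeparatedNhds.of_isCompact_isCompact
    (hU.isClosed.isCompact.image continuous_subtype_val)
    (hU.compl.isClosed.isCompact.image continuous_subtype_val)
    ((disjoint_image_iff Subtype.val_injective).2 disjoint_compl_right)
  obtain ⟨δ, hδ, hsub⟩ := hc.isCompact.exists_cthickening_subset_open (hA.union hB) fun z hz => by
    by_cases hzU : (⟨z, hz⟩ : L) ∈ U
    · exact Or.inl (sA ⟨_, hzU, rfl⟩)
    · exact Or.inr (sB ⟨_, hzU, rfl⟩)
  filter_upwards [prod_mem_nhds (Iio_mem_nhds hδ) (prod_mem_nhds (hA.mem_nhds (sA ⟨_, hxU, rfl⟩))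
    (hB.mem_nhds (sB ⟨_, hyU, rfl⟩)))] with z hz K hK hp h1 h2
  have := hp.subset_left_of_subset_union hA hB hAB
    (hK.trans ((cthickening_mono (le_of_lt hz.1) L).trans hsub)) ⟨_, h1, hz.2.1⟩
  exact disjoint_left.1 hAB (this h2) hz.2.2

theorem dim : DimStmt := by
  intro X _ _ h1 h2 ε hε
  obtain ⟨L, hc, hL, hs⟩ := exists_cut (X := X) hε
  obtain ⟨η, hη, hP⟩ := exists_thick hc (totallyDisconnected_of h1 h2 hc hL) hε
  refine ⟨cthickening η L, (thickening (η / 2) L)ᶜ, isClosed_cthickening,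
    isOpen_thickening.isClosed_compl, eq_univ_of_forall fun x => ?_, hP, fun K hK =>
      hs K (hK.trans (compl_subset_compl.2 (self_subset_thickening (half_pos hη) L)))⟩
  by_cases hx : x ∈ thickening η L
  · exact Or.inl (interior_maximal (thickening_subset_cthickening η L) isOpen_thickening hx)
  · exact Or.inr (interior_maximal (compl_subset_compl.2 (thickening_subset_cthickening _ L))
      isClosed_cthickening.isOpen_compl fun h =>
        hx (cthickening_subset_thickening' hη (half_lt_self hη) L h))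

end Pool.Agent.MP_98f34a_gt.H92
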